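import Mathlib

/-!
# Project MR (helper49): the codes C_{δ,s} in dimension 8 (problem MP_5d0678_co)

`K` is a finite field of odd characteristic with `q` elements, `L/K` has degree 8,
`σ x = x ^ (q ^ s)` with `s` odd.  `x_i` means `σ^i x` below.  All statements are written with
iterated applications `σ (σ x)`, so that after `simp only [map_mul, map_add, ...]` everything is
a polynomial identity in atoms.

Each `S_...` is one lemma job; its docstring contains the complete proof.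
-/

open Module

namespace Q49.MR

/-- Standing data. -/
structure Cyc {K L : Type} [Field K] [Finite K] [Field L] [Finite L] [Algebra K L]
    (σ : L ≃ₐ[K] L) : Prop where
  two : (2 : K) ≠ 0
  rank : finrank K L = 8
  pow : ∃ s : ℕ, Odd s ∧ ∀ x : L, σ x = x ^ (Nat.card K ^ s)

section defs

variable {K L : Type} [Field K] [Field L] [Algebra K L] (σ : L ≃ₐ[K] L)

/-- The elements with `x_4 = -x` (a `K`-subspace of dimension 4). -/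
def W : Submodule K L where
  carrier := {x | σ (σ (σ (σ x))) = -x}
  add_mem' := by
    intro a b ha hb
    simp only [Set.mem_ofPred_eq, map_add] at *
    rw [ha, hb]; ring
  zero_mem' := by simp
  smul_mem' := by
    intro c x hx
    simp only [Set.mem_ofPred_eq, map_smul] at *
    rw [hx, smul_neg]

/-- The elements with `x_2 = -x` (a `K`-subspace of dimension 2). -/
def Em : Submodule K L where
  carrier := {x | σ (σ x) = -x}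
  add_mem' := by
    intro a b ha hb
    simp only [Set.mem_ofPred_eq, map_add] at *
    rw [ha, hb]; ring
  zero_mem' := by simp
  smul_mem' := by
    intro c x hx
    simp only [Set.mem_ofPred_eq, map_smul] at *
    rw [hx, smul_neg]

/-- `Ψ(k) = k0² − k2² − κ0 k0 k1 + κ3 k0 k3 + κ1 k1 k2 + κ2 k2 k3`. -/
def Psi (κ k : L) : L :=
  k ^ 2 - (σ (σ k)) ^ 2 - κ * k * σ k + σ (σ (σ κ)) * k * σ (σ (σ k))
    + σ κ * σ k * σ (σ k) + σ (σ κ) * σ (σ k) * σ (σ (σ k))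

/-- The polar form of `Ψ`; `PP κ k k = 2 Ψ(k)`. -/
def PP (κ k k' : L) : L :=
  2 * k * k' - 2 * σ (σ k) * σ (σ k') - κ * (k * σ k' + σ k * k')
    + σ (σ (σ κ)) * (k * σ (σ (σ k')) + σ (σ (σ k)) * k')
    + σ κ * (σ k * σ (σ k') + σ (σ k) * σ k')
    + σ (σ κ) * (σ (σ k) * σ (σ (σ k')) + σ (σ (σ k)) * σ (σ k'))

/-- The symmetric bilinear form `(k,k') ↦ Tr_{L/K}(e * PP κ k k')` on `W`. -/
noncomputable def TT (κ e : L) : LinearMap.BilinForm K (W σ) :=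
  LinearMap.mk₂ K (fun k k' => Algebra.trace K L (e * PP σ κ k k'))
    (by
      intro a b c
      rw [← map_add]; congr 1
      simp only [PP, Submodule.coe_add, map_add]; ring)
    (by
      intro c a b
      rw [← map_smul]; congr 1
      simp only [PP, Submodule.coe_smul, map_smul, Algebra.smul_def, map_mul, AlgEquiv.commutes]
      ring)
    (by
      intro a b c
      rw [← map_add]; congr 1
      simp only [PP, Submodule.coe_add, map_add]; ring)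
    (by
      intro c a b
      rw [← map_smul]; congr 1
      simp only [PP, Submodule.coe_smul, map_smul, Algebra.smul_def, map_mul, AlgEquiv.commutes]
      ring)

/-- `T_X(c) = c − κ c1 + κ3 c3 + X c2`. -/
def TX (κ X c : L) : L :=
  c - κ * σ c + σ (σ (σ κ)) * σ (σ (σ c)) + X * σ (σ c)

/-- The bilinear form `(c,c') ↦ 2 Tr_{L/K}(T_X(c) c')` on `W` (symmetric when `σ⁴κ = κ` and
`X ∈ Em`). -/
noncomputable def GG (κ X : L) : LinearMap.BilinForm K (W σ) :=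
  LinearMap.mk₂ K (fun c c' => 2 * Algebra.trace K L (TX σ κ X c * c'))
    (by
      intro a b c
      rw [← mul_add, ← map_add]; congr 2
      simp only [TX, Submodule.coe_add, map_add]; ring)
    (by
      intro c a b
      rw [smul_eq_mul, mul_left_comm, ← smul_eq_mul (a := c), ← map_smul]; congr 2
      simp only [TX, Submodule.coe_smul, map_smul, Algebra.smul_def, map_mul, AlgEquiv.commutes]
      ring)
    (by
      intro a b c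
      rw [← mul_add, ← map_add]; congr 2
      simp only [Submodule.coe_add]; ring)
    (by
      intro c a b
      rw [smul_eq_mul, mul_left_comm, ← smul_eq_mul (a := c), ← map_smul]; congr 2
      simp only [Submodule.coe_smul, Algebra.smul_def]
      ring)

/-- `α = (1 − κ0²)(1 − κ2²)`. -/
def al (κ : L) : L := (1 - κ ^ 2) * (1 - (σ (σ κ)) ^ 2)

/-- `β = κ0² + κ1² + κ2² + κ3² − 2 + 2 κ0 κ1 κ2 κ3`. -/
def be (κ : L) : L :=
  κ ^ 2 + (σ κ) ^ 2 + (σ (σ κ)) ^ 2 + (σ (σ (σ κ))) ^ 2 - 2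
    + 2 * (κ * σ κ * σ (σ κ) * σ (σ (σ κ)))

/-- `F(p) = α p⁴ + β p² p1² + α1 p1⁴`. -/
def FF (κ p : L) : L :=
  al σ κ * p ^ 4 + be σ κ * p ^ 2 * (σ p) ^ 2 + σ (al σ κ) * (σ p) ^ 4

/-- The relation `(x1 − x)(x5 − x4) = N (x5 − x)(x1 − x4)`. -/
def Rel (N x : L) : Prop :=
  (σ x - x) * (σ (σ (σ (σ (σ x)))) - σ (σ (σ (σ x)))) =
    N * ((σ (σ (σ (σ (σ x)))) - x) * (σ x - σ (σ (σ (σ x)))))

/-- `(α,β,γ) ∈ W³` with `β² − 4αγ = 1` and `β β1 − 2 α γ1 − 2 α1 γ = −κ`. -/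
def Sol (κ : L) : Prop :=
  ∃ α ∈ W σ, ∃ β ∈ W σ, ∃ γ ∈ W σ, β ^ 2 - 4 * α * γ = 1 ∧
    β * σ β - 2 * α * σ γ - 2 * σ α * γ = -κ

end defs

/-! ## Basic facts -/

/-- JOB BAS1 (part 1 of 2).  `σ⁸ = 1` (since `x ^ q^8 = x` on `L`). -/
def S_B8 : Prop := ∀ (K L : Type) [Field K] [Finite K] [Field L] [Finite L] [Algebra K L]
  (σ : L ≃ₐ[K] L), Cyc σ → ∀ x : L, σ (σ (σ (σ (σ (σ (σ (σ x))))))) = x

/-- fixed elements lie in `K`. -/
def S_FX : Prop := ∀ (K L : Type) [Field K] [Finite K] [Field L] [Finite L] [Algebra K L]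
  (σ : L ≃ₐ[K] L), Cyc σ → ∀ x : L, σ x = x → ∃ c : K, algebraMap K L c = x

/-- on `{x_2 = x}` the map `σ` is the `q`-Frobenius. -/
def S_K2 : Prop := ∀ (K L : Type) [Field K] [Finite K] [Field L] [Finite L] [Algebra K L]
  (σ : L ≃ₐ[K] L), Cyc σ → ∀ x : L, σ (σ x) = x → σ x = x ^ Nat.card K

/-- `σ⁴` is the `q⁴`-Frobenius. -/
def S_TAU : Prop := ∀ (K L : Type) [Field K] [Finite K] [Field L] [Finite L] [Algebra K L]
  (σ : L ≃ₐ[K] L), Cyc σ → ∀ x : L, σ (σ (σ (σ x))) = x ^ (Nat.card K ^ 4)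

/-- an element with `c_4 = c` is a square in `L`. -/
def S_SQ : Prop := ∀ (K L : Type) [Field K] [Finite K] [Field L] [Finite L] [Algebra K L]
  (σ : L ≃ₐ[K] L), Cyc σ → ∀ c : L, σ (σ (σ (σ c))) = c → ∃ y : L, y ^ 2 = c

/-- JOB BAS2.  The trace is the sum of the eight conjugates.
Proof.  `FiniteField.algebraMap_trace_eq_sum_pow`: the trace is `∑_{i<8} x^(q^i)`;
`σ^i x = x^(q^(s i))` and `i ↦ s i mod 8` permutes the residues because `s` is odd. -/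
def S_TR : Prop := ∀ (K L : Type) [Field K] [Finite K] [Field L] [Finite L] [Algebra K L]
  (σ : L ≃ₐ[K] L), Cyc σ → ∀ x : L,
    algebraMap K L (Algebra.trace K L x) = x + σ x + σ (σ x) + σ (σ (σ x)) +
      σ (σ (σ (σ x))) + σ (σ (σ (σ (σ x)))) + σ (σ (σ (σ (σ (σ x))))) +
      σ (σ (σ (σ (σ (σ (σ x))))))

/-- JOB BAS3.  The four maps `x ↦ x_i` (`i < 4`) are independent over `L` on `W`.
Proof.  For `y : L` put `x = y − y_4 ∈ W` (uses `y_8 = y`, `S_B8`).  Then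
`0 = c0 x + c1 x_1 + c2 x_2 + c3 x_3 = c0 y + c1 y_1 + c2 y_2 + c3 y_3 − c0 y_4 − … − c3 y_7`
for all `y`; the eight automorphisms `1, σ, …, σ⁷` are distinct (else `σ^i = 1` with
`1 ≤ i ≤ 7`, but `σ^i x = x^(q^(si))`, `8 ∤ s i`, so all of `L` would satisfy
`x^(q^j) = x` with `j = s i mod 8 < 8`, too many roots), so Dedekind independence
(`linearIndependent_monoidHom`) gives the claim. -/
def S_IND : Prop := ∀ (K L : Type) [Field K] [Finite K] [Field L] [Finite L] [Algebra K L]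
  (σ : L ≃ₐ[K] L), Cyc σ → ∀ c0 c1 c2 c3 : L,
    (∀ x ∈ W σ, c0 * x + c1 * σ x + c2 * σ (σ x) + c3 * σ (σ (σ x)) = 0) →
    c0 = 0 ∧ c1 = 0 ∧ c2 = 0 ∧ c3 = 0

/-- JOB BAS4.  `dim W = 4` and `dim Em = 2`.
Proof.  There is `t ≠ 0` with `t_4 = −t` (else `y = y_4` for all `y`, as `y − y_4 ∈ W`), and
multiplication by `t` is a `K`-isomorphism from `{x_4 = x}` onto `W`; `{x_4 = x}` is the set
of roots of `x^(q^4) = x` in `L`, with `q⁴` elements.  (Or: `W` and `{x_4 = x}` are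
complementary and isomorphic, so both have dimension 4.)  Same for `Em` and `{x_2 = x}` inside
`{x_4 = x}`. -/
def S_DIM : Prop := ∀ (K L : Type) [Field K] [Finite K] [Field L] [Finite L] [Algebra K L]
  (σ : L ≃ₐ[K] L), Cyc σ → finrank K (W σ) = 4 ∧ finrank K (Em σ) = 2

/-- JOB BAS5.  Every linear functional on `W` is `c ↦ Tr(β c)` with `β ∈ W`.
Proof.  Extend the functional to `L` (`LinearMap.exists_extend`), the trace form of `L/K` is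
nondegenerate (`traceForm_nondegenerate`), so it is `c ↦ Tr(b c)` with `b : L`; put
`β = (b − b_4)/2 ∈ W`; `b_8 = b` (`S_B8`).  For `c ∈ W`: `Tr(b_4 c) = Tr(b_8 c_4) = −Tr(b c)`,
so `Tr(β c) = Tr(b c)`.  (Trace is `σ`-invariant: `Algebra.trace_eq_of_algEquiv`.) -/
def S_DUAL : Prop := ∀ (K L : Type) [Field K] [Finite K] [Field L] [Finite L] [Algebra K L]
  (σ : L ≃ₐ[K] L), Cyc σ → ∀ ℓ : W σ →ₗ[K] K, ∃ β ∈ W σ, ∀ c : W σ,
    ℓ c = Algebra.trace K L (β * c)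

/-! ## The polynomial lemma -/

/-- JOB POLY.  Let `Φ(w) = a + b w² + c w⁴`, `h = (q−1)/2`.  Suppose `w² Φ(w)^h = 1` for all
`w ∈ S` (`q+1` distinct roots of `w^(q+1) = 1`, so `Z := X^(q+1) − 1 = ∏_{ζ ∈ S} (X − ζ)`).
Then `Z ∣ P := X² Φ^h − 1`; write `P = Z R`; `deg P = 2q`, so `deg R ≤ q − 1`.  In `F` we have
`2h = q − 1 = −1`, `Z' = X^q` (as `q+1 = 1` in `F`), so `X Z' = Z + 1`, and
`X Φ P' = (2Φ + h X Φ') X² Φ^h = E0 (P + 1)` with `E0 = 2Φ − XΦ'/2 = 2a + b X²`.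
Hence `Φ (Z+1) R + X Φ Z R' = E0 (Z R + 1)`, i.e.
`Φ R = E0 − Z U`,  `U := X Φ R' − Φ R + (XΦ'/2) R`  (using `E0 = 2Φ − XΦ'/2`).
Degrees: `deg (Φ R) ≤ q + 3`, so `deg U ≤ 2`.  Next, with `G = ΦR = E0 − Z U`:
`Φ U = X Φ G' − Φ G − (XΦ'/2) G` and `X G' = X E0' − (Z+1) U − X Z U'`, so
`2 Φ U − X Φ E0' + (Φ + XΦ'/2) E0 = Z V`,  `V := (XΦ'/2) U − X Φ U'`.
The left side has degree `≤ 6`, `deg Z = q + 1 ≥ 6`, and `V` has zero constant term; so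
`V = 0` (if `q = 5` then `V` is a constant, hence `0`).  So `Φ ∣ Φ' U` after cancelling `X/2`.
`Φ` and `Φ'` are coprime (`a ≠ 0`, `c ≠ 0`, `b² − 4ac ≠ 0`, `2 ≠ 0`:
a common root `w` has `w ≠ 0` and `w² = −b/(2c)`, then `Φ(w) = (4ac − b²)/(4c) ≠ 0`; an explicit
Bezout identity: `Φ = a + bX² + cX⁴`, `Φ' = 2bX + 4cX³`,
`(4Φ − XΦ') = 4a + 2bX²`, ...), so `Φ ∣ U`, `deg U ≤ 2 < 4`, `U = 0`.  Then `Φ R = E0` with
`deg E0 ≤ 2 < 4` gives `R = 0`, `E0 = 0`, `2a = 0`, contradiction. -/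
def S_POLY : Prop := ∀ (F : Type) [Field F] (q : ℕ) (a b c : F) (S : Finset F),
  Odd q → 5 ≤ q → (q : F) = 0 → (2 : F) ≠ 0 → a ≠ 0 → c ≠ 0 → b ^ 2 - 4 * a * c ≠ 0 →
  S.card = q + 1 → (∀ w ∈ S, w ^ (q + 1) = 1) →
  ∃ w ∈ S, w ^ 2 * (a + b * w ^ 2 + c * w ^ 4) ^ ((q - 1) / 2) ≠ 1

/-! ## A square value of F -/

/-- JOB P2A (uses `S_POLY`, `S_K2`, `S_FX`, `S_B8`, `S_TAU` as hypotheses).  `κ_4 = κ`,
`κ² ≠ 1`, `Δ = β² − 4 α α1 ≠ 0`.  Claim: some `p ∈ Em`, `p ≠ 0`, has `F(p)` = square of an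
element of `K`.
Proof.  `F(p)` is fixed by `σ` for `p ∈ Em` (`α_2 = α`, `β_1 = β`, `p_2 = −p`), so
`F(p) ∈ K`.  Suppose `F(p)` is not a square in `K` for every `p ∈ Em∖0`; so `F(p) ≠ 0` and
`F(p)^h = −1`, `h = (q−1)/2` (`FiniteField.pow_dichotomy`, `FiniteField.isSquare_iff`, over
`K` or simply in `L`).  Fix `p0 ∈ Em∖0`.
Let `g` run over nonzero elements with `g_2 = g` (so `g_1 = g^q`), `w = g^(q−1)`; then
`p = g p0 ∈ Em∖0`, `p_1 = g w (p0)_1`, `w^(q+1) = 1`.  Put `ζ = (p0)_1²/p0²`.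
`F(p) = g⁴ p0⁴ (α + β w² ζ + α1 w⁴ ζ²) = M w^(−2) Φ(w)` with `M = p² p_1² = g⁴ w² p0⁴ ζ`,
`Φ(w) = α ζ⁻¹ + β w² + α1 ζ w⁴`.  Now `(p p_1)_1 = −p p_1` and `p p_1` is fixed by `σ²`, so
`(p p_1)^q = −p p_1`, `M^h = (p p_1)^(q−1) = −1`.  Hence
`−1 = F(p)^h = −w^(−2h) Φ(w)^h = −w² Φ(w)^h` (as `w^(−(q−1)) = w²`).
So `w² Φ(w)^h = 1` for every `w` of the form `g^(q−1)`; these are `q + 1` elements (the image
of the `(q−1)`-th power map on the cyclic group of order `q² − 1` of nonzero elements fixed by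
`σ²`; alternatively, let `S` be the set of all roots of `w^(q+1) = 1` in `L`, it has `q + 1`
elements since `q + 1 ∣ q⁸ − 1`, and each is `g^(q−1)` with `g^(q²−1) = 1`, by Hilbert 90:
`g = y + w⁻¹ y_1`..., note `w_1 = w^q = w⁻¹`: take `y` fixed by `σ²` with `g ≠ 0`).
If `q ≥ 5` this contradicts `S_POLY` with `a = α ζ⁻¹`, `b = β`, `c = α1 ζ`:
`b² − 4ac = Δ ≠ 0`, `α ≠ 0` because `κ² ≠ 1`.
If `q = 3` (so `h = 1`): `w = 1` gives `a + b + c = 1`, `w² = −1` gives `−(a − b + c) = 1`, so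
`b = 1`, `a + c = 0`; `ζ = η²`, `η = (p0)_1/p0`, `η η_1 = −1`, `η_1 = η³`, so `η⁴ = −1`,
`ζ² = −1`; `a + c = 0` gives `α + α1 ζ² = 0`, `α = α1 ∈ K = F_3`, `α² = 1`, and
`Δ = 1 − 4 α² = −3 = 0`, contradiction. -/
def S_P2A : Prop := ∀ (K L : Type) [Field K] [Finite K] [Field L] [Finite L] [Algebra K L]
  (σ : L ≃ₐ[K] L), Cyc σ → ∀ κ : L, σ (σ (σ (σ κ))) = κ → κ ^ 2 ≠ 1 →
    (be σ κ) ^ 2 - 4 * al σ κ * σ (al σ κ) ≠ 0 →
    ∃ p ∈ Em σ, p ≠ 0 ∧ ∃ g : K, FF σ κ p = algebraMap K L (g ^ 2)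

/-- JOB P2B (uses `S_SQ`, `S_FX`, `S_DIM` as hypotheses).  The case `Δ = 0`.
Proof.  Let `y` with `y² = κ² − 1` (`S_SQ`).  `y_4 = ±y`.  Let `Y = y y_1 y_2 y_3`;
`Y² = Π(κ_i² − 1) = α α1 = (β/2)²`, so `Y = ±β/2` is fixed by `σ`; if `y_4 = −y` then
`Y_1 = −Y`, so `Y = 0`, `y = 0`, `κ² = 1`, excluded.  So `y_4 = y`.
`α = (κ²−1)(κ_2²−1) = a0²`, `a0 = y y_2`, `α1 = a1²`, `a1 = y_1 y_3 = (a0)_1`, `(a0)_2 = a0`,
`β² = (2 a0 a1)²`, so `β = 2 a0 a1` or `β = −2 a0 a1`.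
Case `+`: `F(p) = (a0 p² + a1 p_1²)²` and `a0 p² + a1 p_1²` is fixed by `σ` for `p ∈ Em`
(`p_2 = −p`), so lies in `K` (`S_FX`); take any `p ∈ Em∖0` (`S_DIM`).
Case `−`: `β + 2 y y_1 y_2 y_3 = 0`.  Put `s = κ + y`, so `s (κ − y) = 1`, `s_4 = s`,
`κ = (s + 1/s)/2`, `y = (s − 1/s)/2`.  Identity (`field_simp; ring`):
`4 (β + 2 y y1 y2 y3) (s s1 s2 s3)² = (s3 + s s1 s2)(s2 + s s1 s3)(s1 + s s2 s3)(s + s1 s2 s3)`.
(With `P = s s1 s2 s3` both sides are `P²(P + 1/P + Σ s_i² + Σ s_i⁻² + Σ_{i<j} s_i² s_j²/P)`.)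
So one factor vanishes; applying a power of `σ`: `s + s1 s2 s3 = 0`, so `s² = −P`, `P ∈ K` is
fixed by `σ`; so all `s_i² = −P`, `P² = Π s_i² = P⁴`, `P² = 1` (`P ≠ 0`), `s⁴ = 1`, `s² = ±1`:
`s² = −1` gives `1/s = −s`, `κ = 0`; `s² = 1` gives `κ = s`, `κ² = 1`.  Both excluded. -/
def S_P2B : Prop := ∀ (K L : Type) [Field K] [Finite K] [Field L] [Finite L] [Algebra K L]
  (σ : L ≃ₐ[K] L), Cyc σ → ∀ κ : L, σ (σ (σ (σ κ))) = κ → κ ≠ 0 → κ ^ 2 ≠ 1 →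
    (be σ κ) ^ 2 - 4 * al σ κ * σ (al σ κ) = 0 →
    ∃ p ∈ Em σ, p ≠ 0 ∧ ∃ g : K, FF σ κ p = algebraMap K L (g ^ 2)

/-! ## Quadratic forms in four variables over a finite field -/

/-- JOB Q4.  `V` of dimension 4, `B` symmetric with radical of dimension `≤ 1`,
`Z = #{v : B v v = 0}`.  Then `q³ + q ≤ Z + q²`, and in case of equality some basis has
nonsquare Gram determinant.
Proof.  Orthogonal basis (`LinearMap.BilinForm.exists_orthogonal_basis`), `w_i = B(b_i,b_i)`,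
at most one `w_i` is `0`.  `Z` = number of solutions of `Σ w_i x_i² = 0` in `K⁴`.
Binary forms `a x² + b y²`, `ab ≠ 0`, `χ` = quadratic character, `η = χ(−ab)`:
number of solutions of `a x² + b y² = t` is `q − η` for `t ≠ 0` and `q + (q−1) η` for `t = 0`
(`Σ_{u+v=t} (1+χ(u/a))(1+χ(v/b))` and the Jacobi sum of `χ,χ`; or directly by factoring).
Four nonzero `w_i`: `Z = Σ_t n1(t) n2(−t) = q³ + χ(Π w_i)(q² − q)`.  One zero `w_i`: `Z = q³`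
(`q` times the number `q²` of solutions of the ternary form).  So `Z = q³ − q² + q` forces all
`w_i ≠ 0` and `Π w_i` nonsquare; the Gram matrix of `b` is `diag(w_i)`. -/
def S_Q4 : Prop := ∀ (K V : Type) [Field K] [Finite K] [AddCommGroup V] [Module K V]
  (B : LinearMap.BilinForm K V), (2 : K) ≠ 0 → finrank K V = 4 → (∀ v w, B v w = B w v) →
  (∀ v w : V, (∀ x, B v x = 0) → (∀ x, B w x = 0) → ¬ LinearIndependent K ![v, w]) →
  Nat.card K ^ 3 + Nat.card K ≤ Nat.card {v : V // B v v = 0} + Nat.card K ^ 2 ∧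
  (Nat.card K ^ 3 + Nat.card K = Nat.card {v : V // B v v = 0} + Nat.card K ^ 2 →
    ∃ b : Basis (Fin 4) K V, ¬ IsSquare (Matrix.det (Matrix.of fun i j => B (b i) (b j))))

/-- JOB B0.  For a nondegenerate symmetric form in 4 variables `#{v : B v v = t}` is the same
for all `t ≠ 0` (it equals `q³ − χ(det) q`).
Proof.  Orthogonal basis, all `w_i ≠ 0` (nondegenerate).  With `n1(t), n2(t)` the numbers for
the binary forms `w_0x²+w_1y²` and `w_2x²+w_3y²` (see `S_Q4`: `n_i(t) = q − η_i` for `t ≠ 0`,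
`n_i(0) = q + (q−1)η_i`), `#{B v v = t} = Σ_u n1(u) n2(t−u)
= n1(0) n2(t) + n1(t) n2(0) + (q − 2)(q − η1)(q − η2)` for `t ≠ 0`, independent of `t`. -/
def S_B0 : Prop := ∀ (K V : Type) [Field K] [Finite K] [AddCommGroup V] [Module K V]
  (B : LinearMap.BilinForm K V), (2 : K) ≠ 0 → finrank K V = 4 → (∀ v w, B v w = B w v) →
  (∀ v : V, (∀ x, B v x = 0) → v = 0) → ∀ t t' : K, t ≠ 0 → t' ≠ 0 →
  Nat.card {v : V // B v v = t} = Nat.card {v : V // B v v = t'}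

/-- JOB B1.  `V` of dimension 4, `B` symmetric with a nonzero radical vector `k`, `ε` a
nonsquare and `#{B v v = ε} ≤ #{B v v = 1}`.  Then `B v v = ℓ1(v)² − 4 ℓ2(v) ℓ3(v)` for linear
functionals `ℓ_i`.
Proof.  Let `Q(v) = B v v`.  If `Q = 0` take `ℓ_i = 0`.  Otherwise `Q` takes a nonzero value
`t`, hence (scaling by squares) the value `1` (if `t` is a square) or `ε` (if not); as
`#{Q=ε} ≤ #{Q=1}`, `Q(v0) = 1` for some `v0`.  Let `Q'(v) = Q(v) − B(v,v0)²`, with symmetric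
form `B'(v,w) = B v w − B v v0 * B w v0`; both `v0` and `k` are in its radical, and they are
independent.  Choose a complement `U` (dimension 2) of `span{v0,k}`; orthogonal basis `u1,u2`
of `B'|U`; for `v = x v0 + y k + z1 u1 + z2 u2`: `Q(v) = ℓ1(v)² + a z1² + b z2²`,
`ℓ1 = B(·,v0)`, `z1, z2` linear in `v`.  If `a = 0` or `b = 0` or `−ab` is a square (`−b/a = m²`:
`a z1² + b z2² = a (z1 − m z2)(z1 + m z2)`), then `a z1² + b z2² = −4 ℓ2 ℓ3`.  Otherwise `−ab` is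
a nonsquare and `#{Q = t} = q · #{(x,z1,z2) : x² + a z1² + b z2² = t}
= q · Σ_x n(t − x²)` with `n(0) = 1`, `n(u) = q + 1` for `u ≠ 0` (anisotropic binary form):
for `t = 1`: `2 + (q−2)(q+1) = q² − q`; for `t = ε`: `q (q+1) = q² + q`.  So
`#{Q=1} < #{Q=ε}`, contradiction. -/
def S_B1 : Prop := ∀ (K V : Type) [Field K] [Finite K] [AddCommGroup V] [Module K V]
  (B : LinearMap.BilinForm K V), (2 : K) ≠ 0 → finrank K V = 4 → (∀ v w, B v w = B w v) →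
  ∀ (k : V), k ≠ 0 → (∀ x, B k x = 0) → ∀ ε : K, ¬ IsSquare ε →
  Nat.card {v : V // B v v = ε} ≤ Nat.card {v : V // B v v = 1} →
  ∃ ℓ1 ℓ2 ℓ3 : V →ₗ[K] K, ∀ v, B v v = ℓ1 v ^ 2 - 4 * ℓ2 v * ℓ3 v

/-! ## The two families of quadratic forms on W -/

/-- JOB DET (uses `S_TR`, `S_FX`, `S_B8` as hypotheses).  `κ_4 = κ`, `p ∈ Em`, `e = p − p_1`
(so `e ∈ Em`, `(e + e_1)/2 = p`, `(e − e_1)/2 = −p_1 =: r`).  For a basis `b` of `W` the Gram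
determinant of `TT κ e` is `D² F(p)` with `D ∈ K`.
Proof.  For `k, k' ∈ W`: `P = PP κ k k'` satisfies `P_2 = −P` (uses `k_4 = −k`, `κ_4 = κ`), so
`eP` is fixed by `σ²` and `Tr_{L/K}(eP) = 4 (eP + e_1 P_1)`.  As a bilinear form in
`(k, k_1, k_2, k_3)`: `eP + e_1P_1` has matrix `2 Q`, `Q` symmetric with diagonal
`(p+r, p−r, −(p+r), −(p−r))`, `Q01 = −p κ`, `Q03 = r κ_3`, `Q12 = r κ_1`, `Q23 = p κ_2`,
`Q02 = Q13 = 0`.  `det Q = F(p)` (`Matrix.det_succ_row_zero` + `ring`, `r = −p_1`).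
With `A i j = σ^i (b j)` (4×4): Gram `= Aᵀ (8 Q) A`, `det = (64 det A)² F(p)`;
`σ(det A) = det A` (rows are shifted cyclically, sign −1, and the last row becomes `−` the
first), so `det A ∈ K` (`S_FX`). -/
def S_DET : Prop := ∀ (K L : Type) [Field K] [Finite K] [Field L] [Finite L] [Algebra K L]
  (σ : L ≃ₐ[K] L), Cyc σ → ∀ κ p : L, σ (σ (σ (σ κ))) = κ → p ∈ Em σ →
  ∀ b : Basis (Fin 4) K (W σ), ∃ D : K,
    algebraMap K L (Matrix.det (Matrix.of fun i j => TT σ κ (p - σ p) (b i) (b j))) =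
      algebraMap K L (D ^ 2) * FF σ κ p

/-- JOB RK (uses `S_TR`, `S_FX`, `S_IND`, `S_B8` as hypotheses).  `κ_4 = κ ≠ 0`, `e ∈ Em∖0`:
the radical of `TT κ e` does not contain two independent vectors.
Proof.  Let `k, k'` be in the radical.  As in `S_DET`, for `x ∈ W`
`Tr(e PP κ k x) = 8 Σ_i (Q k⃗)_i x_i`, `p = (e+e_1)/2`, `r = (e−e_1)/2`; by `S_IND` `Q k⃗ = 0`,
likewise `Q k⃗' = 0`, i.e.
(R0) `(p+r)k0 − pκ0 k1 + rκ3 k3 = 0`, (R1) `−pκ0 k0 + (p−r)k1 + rκ1 k2 = 0`,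
(R2) `rκ1 k1 − (p+r)k2 + pκ2 k3 = 0`, (R3) `rκ3 k0 + pκ2 k2 − (p−r)k3 = 0`.
With `D_ij = k_i k'_j − k_j k'_i` these give (multiply a row for `k` by `k'_j` and subtract)
`(p+r)(D01, D12, D23, D03) = D13 (rκ3, pκ2, rκ1, pκ0)` and
`(p−r)(D01, D12, D23, D03) = D02 (−rκ1, pκ0, −rκ3, pκ2)`.
`p + r = e ≠ 0`, `p − r = e_1 ≠ 0`, and `p, r ≠ 0`, all `κ_i ≠ 0`.  If `D13 = 0` then `D01 = 0`:
`k k'_1 = k_1 k'`, so `k'/k` (if `k ≠ 0`) is fixed by `σ`, in `K`: dependent.  If `D13 ≠ 0` then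
the `D`'s on the left are nonzero, `D02 ≠ 0`, and comparing ratios:
`κ0 κ3 = −κ1 κ2` and `κ2² = κ0²`, `κ3² = κ1²`; `κ2 = ηκ0` with `η = ±1`, so `κ3 = ηκ1`, so
`ηκ0κ1 = −ηκ1κ0`, `κ = 0`, contradiction. -/
def S_RK : Prop := ∀ (K L : Type) [Field K] [Finite K] [Field L] [Finite L] [Algebra K L]
  (σ : L ≃ₐ[K] L), Cyc σ → ∀ κ e : L, σ (σ (σ (σ κ))) = κ → κ ≠ 0 → e ∈ Em σ → e ≠ 0 →
  ∀ k k' : W σ, (∀ x, TT σ κ e k x = 0) → (∀ x, TT σ κ e k' x = 0) →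
    ¬ LinearIndependent K ![k, k']

/-- JOB CNT (uses `S_TR`, `S_DIM`, `S_B8` as hypotheses).
Assume `Ψ(k) ≠ 0` for all `k ∈ W∖0` and that every form `TT κ e` (`e ∈ Em∖0`) has at least
`q³ − q² + q` zeros.  Then all have exactly that many.
Proof.  `TT κ e k k = 2 Tr(e Ψ(k))` and `Ψ(k) ∈ Em` for `k ∈ W`.  For `y ∈ Em∖0` the functional
`e ↦ Tr(e y)` on `Em` is not zero (at `e = 1/y ∈ Em` it is `8 ≠ 0`), so it has `q` zeros.
Double counting: `Σ_{e ∈ Em} Z(e) = q² + (q⁴−1) q`, `Z(0) = q⁴`, so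
`Σ_{e ≠ 0} Z(e) = q⁵ − q⁴ + q² − q = (q²−1)(q³−q²+q)`. -/
def S_CNT : Prop := ∀ (K L : Type) [Field K] [Finite K] [Field L] [Finite L] [Algebra K L]
  (σ : L ≃ₐ[K] L), Cyc σ → ∀ κ : L, σ (σ (σ (σ κ))) = κ →
  (∀ k ∈ W σ, k ≠ 0 → Psi σ κ k ≠ 0) →
  (∀ e ∈ Em σ, e ≠ 0 → Nat.card K ^ 3 + Nat.card K ≤
    Nat.card {k : W σ // TT σ κ e k k = 0} + Nat.card K ^ 2) →
  ∀ e ∈ Em σ, e ≠ 0 → Nat.card K ^ 3 + Nat.card K =
    Nat.card {k : W σ // TT σ κ e k k = 0} + Nat.card K ^ 2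

/-- JOB CC.  From a zero of `Ψ` to a degenerate form `GG κ X`, and symmetry of `GG`.
(Uses `S_B8` as hypothesis for the symmetry if wanted, not needed for the first part.)
Proof.  (i) Let `X = −(k − κ k1 + κ3 k3)/k2`.  `T_X(k) = 0` by definition, so `GG κ X k c' = 0`.
`X_2 = (k2 − κ2 k3 − κ1 k1)/k0` (`k4 = −k0`, `k5 = −k1`, `κ4 = κ0`, `κ5 = κ1`), and
`X_2 = −X` is `k2(k2 − κ2k3 − κ1k1) = k0(k0 − κ0k1 + κ3k3)`, which is `Ψ(k) = 0`.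
(ii) For `X ∈ Em`: `Tr(c' T_X(c))` is symmetric: by `σ`-invariance of the trace
`Tr(κ3 c3 c') = Tr(κ4 c4 c'1) = −Tr(κ c c'1)` and `Tr(X c2 c') = Tr(X_2 c4 c'2) = Tr(X c c'2)`. -/
def S_CC : Prop := ∀ (K L : Type) [Field K] [Finite K] [Field L] [Finite L] [Algebra K L]
  (σ : L ≃ₐ[K] L), Cyc σ → ∀ κ : L, σ (σ (σ (σ κ))) = κ →
  (∀ k ∈ W σ, k ≠ 0 → Psi σ κ k = 0 → ∃ X ∈ Em σ, TX σ κ X k = 0) ∧
  (∀ X ∈ Em σ, ∀ c c' : W σ, GG σ κ X c c' = GG σ κ X c' c)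

/-- JOB BC (uses `S_TR`, `S_DIM`, `S_B8` as hypotheses).
`Σ_{X ∈ Em} #{c : GG κ X c c = t}` is the same for all `t ≠ 0`.
Proof.  For `c ∈ W`, `c ≠ 0`: `GG κ X c c = 2 Tr(c T_0(c)) + 2 Tr(X c c2)`, and `X ↦ Tr(X c c2)`
is a nonzero functional on the 2-dimensional space `Em` (`c c2 ∈ Em∖0`, at `X = 1/(c c2)` it
is `8 ≠ 0`), so each value `t` is taken by exactly `q` elements `X`; `c = 0` gives only `t = 0`.
Hence the sum is `q (q⁴ − 1)` for `t ≠ 0`. -/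
def S_BC : Prop := ∀ (K L : Type) [Field K] [Finite K] [Field L] [Finite L] [Algebra K L]
  (σ : L ≃ₐ[K] L), Cyc σ → ∀ κ : L, ∀ t t' : K, t ≠ 0 → t' ≠ 0 →
  Nat.card {z : Em σ × W σ // GG σ κ z.1 z.2 z.2 = t} =
    Nat.card {z : Em σ × W σ // GG σ κ z.1 z.2 z.2 = t'}

/-- JOB E (uses `S_TR`, `S_IND`, `S_DUAL`, `S_B8` as hypotheses).
A representation `GG κ X c c = ℓ1² − 4 ℓ2 ℓ3` gives a solution.
Proof.  `ℓ1 = Tr(β ·)`, `ℓ2 = Tr(α ·)`, `ℓ3 = Tr(γ ·)` with `α, β, γ ∈ W` (`S_DUAL`).  For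
`β, c ∈ W`, `βc` is fixed by `σ⁴`, so `Tr(βc) = 2 t(βc)` in `L`, `t(y) = y + y1 + y2 + y3`.
The form `GG κ X` is symmetric (`S_CC`, second part, also allowed as hypothesis); polarizing
(characteristic not 2), for all `c, c' ∈ W`:
`2 Tr(T_X(c) c') = Tr(βc)Tr(βc') − 2Tr(αc)Tr(γc') − 2Tr(αc')Tr(γc)`, i.e.
`t(T_X(c) c') = t(βc)t(βc') − 2 t(αc)t(γc') − 2 t(αc')t(γc)`  (`T_X(c) ∈ W`).
Both sides are `L`-combinations of `c', c'1, c'2, c'3`; by `S_IND` the coefficients of `c'`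
agree: `T_X(c) = β t(βc) − 2γ t(αc) − 2α t(γc)` for all `c ∈ W`, and again by `S_IND` the
coefficients of `c` and of `c1`: `1 = β² − 4αγ`, `−κ = ββ1 − 2γα1 − 2αγ1`. -/
def S_E : Prop := ∀ (K L : Type) [Field K] [Finite K] [Field L] [Finite L] [Algebra K L]
  (σ : L ≃ₐ[K] L), Cyc σ → ∀ κ : L, σ (σ (σ (σ κ))) = κ → ∀ X ∈ Em σ,
  (∃ ℓ1 ℓ2 ℓ3 : W σ →ₗ[K] K, ∀ c, GG σ κ X c c = ℓ1 c ^ 2 - 4 * ℓ2 c * ℓ3 c) → Sol σ κ

/-! ## From a solution to a code word of rank at most 6, and back -/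

/-- JOB F.  A solution for `κ = (N+1)/(N−1)` gives `λ ∉ K` with
`(λ1−λ)(μ1−μ) = N (μ1−λ)(λ1−μ)`, `μ = λ_4`.
Proof.  The two equations are symmetric in `α, γ`.  If `α = γ = 0` then `β² = 1`, `β = ±1`,
`β_4 = β = −β`, impossible.  So assume `α ≠ 0` and put `λ = (1−β)/(2α)`; then
`μ = λ_4 = (1+β)/(−2α)` (`α_4 = −α`, `β_4 = −β`), `λ − μ = 1/α`, `λ+μ = −β/α`, `λμ = γ/α`.
`S1 = (λ1−λ)(μ1−μ)`, `S2 = (μ1−λ)(λ1−μ)`: `S1 − S2 = (λ−μ)(λ1−μ1) = 1/(αα1)` and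
`S1 + S2 = 2(λμ+λ1μ1) − (λ+μ)(λ1+μ1) = κ/(αα1)`; so `S1/S2 = (κ+1)/(κ−1) = N`.
`λ ≠ μ`, so `σ λ ≠ λ`. -/
def S_F : Prop := ∀ (K L : Type) [Field K] [Finite K] [Field L] [Finite L] [Algebra K L]
  (σ : L ≃ₐ[K] L), Cyc σ → ∀ κ N : L, N ≠ 1 → κ * (N - 1) = N + 1 → Sol σ κ →
  ∃ x : L, σ x ≠ x ∧ Rel σ N x

/-- JOB H.  The case `N = −1` (`κ = 0`): no such `λ`.  (Uses `S_B8` as hypothesis.)
Proof.  Let `μ = λ_4`, and assume
`(λ1−λ)(μ1−μ) + (μ1−λ)(λ1−μ) = 0`, i.e. `2(λμ+λ1μ1) = (λ+μ)(λ1+μ1)`.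
If `λ = μ`: `2(λ−λ1)² = 0`, so `λ1 = λ`.  If `λ ≠ μ`: put `α = 1/(λ−μ)`, `β = −α(λ+μ)`,
`γ = αλμ`, all in `W`; `β² − 4αγ = 1`, `ββ1 − 2αγ1 − 2α1γ = 0`.  For
`v_i = (α_i, β_i, γ_i)` and `⟨v,v'⟩ = ββ' − 2αγ' − 2α'γ`: `⟨v_i,v_i⟩ = 1`, `⟨v_i,v_{i+1}⟩ = 0`
(also `⟨v_3,v_0⟩ = −⟨v_3,v_4⟩ = 0`), `X = ⟨v_0,v_2⟩`, `⟨v_1,v_3⟩ = X_1`, `X_2 = −X`.  The Gram
matrix of four vectors in a 3-dimensional space is singular, its determinant is
`(1−X²)(1−X_1²)`; so `X² = 1` or `X_1² = 1`, so `X² = 1`, `X = ±1`, `X_2 = X = −X`,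
contradiction. -/
def S_H : Prop := ∀ (K L : Type) [Field K] [Finite K] [Field L] [Finite L] [Algebra K L]
  (σ : L ≃ₐ[K] L), Cyc σ → ∀ x : L, Rel σ (-1) x → σ x = x

/-- Hilbert 90 for `L/E`: `ρ ρ_4 = 1` gives `x ≠ 0` with `x_4 = ρ x`.
Proof.  `x = y + y_4/ρ`; it is nonzero for some `y` (else `y = 1` gives `ρ = −1` and then
`y = y_4` for all `y`, contradicting `S_DIM` or `S_IND`). -/
def S_HIL : Prop := ∀ (K L : Type) [Field K] [Finite K] [Field L] [Finite L] [Algebra K L]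
  (σ : L ≃ₐ[K] L), Cyc σ → ∀ ρ : L, ρ * σ (σ (σ (σ ρ))) = 1 →
  ∃ x : L, x ≠ 0 ∧ σ (σ (σ (σ x))) = ρ * x

/-- JOB G (uses `S_B8`, `S_HIL`, `S_FX`, `S_IND` as hypotheses).  Code words:
`a x + b (x_1 + δ x_5)`.  (i) If `N = δ δ_4 ≠ 0` and some `λ` with `λ_1 ≠ λ` satisfies the
equation of `S_F`, or if `N = 1`, then there are `a, b`, not both `0`, and independent `x, y`
in the kernel.  (ii) Conversely, a code word with `(a,b) ≠ (0,0)` and two independent kernel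
elements gives such a `λ`.
Proof.  (i) Need `x, y = λx` with `f(x)/x = f(y)/y`, `f(x) = x_1 + δ x_5`:
`(λ1−λ) x1 + δ(μ1−λ) x5 = 0`, i.e. `z = x1` satisfies `z_4 = ρ z`,
`ρ = −(λ1−λ)/(δ(μ1−λ))`, `ρ ρ_4 = (λ1−λ)(μ1−μ)/(N (μ1−λ)(λ1−μ)) = 1` (`λ1 ≠ λ`, so `μ1 ≠ μ`
and the right factors are nonzero too); use `S_HIL` and `x = σ⁻¹ z`; `b = 1`, `a = −f(x)/x`.
For `N = 1`: `ρ = −1/δ`, `z_4 = ρ z`, `x = σ⁻¹ z` gives `f(x) = z + δ z_4 = 0`; all `u x` with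
`u_4 = u` work; take `y = u x` with `u_4 = u ≠ u_1` (exists).
(ii) `b ≠ 0`; `y = λx`, `λ ∉ K`; `f(λx) = λ f(x)` gives `(λ1−λ) x1 = −δ(μ1−λ) x5`; multiply
with its `σ⁴`-conjugate and cancel `x1 x5`. -/
def S_G : Prop := ∀ (K L : Type) [Field K] [Finite K] [Field L] [Finite L] [Algebra K L]
  (σ : L ≃ₐ[K] L), Cyc σ → ∀ δ : L, δ ≠ 0 →
  ((∃ x : L, σ x ≠ x ∧ Rel σ (δ * σ (σ (σ (σ δ)))) x) ∨ δ * σ (σ (σ (σ δ))) = 1 →
    ∃ a b : L, (a ≠ 0 ∨ b ≠ 0) ∧ ∃ x y : L, LinearIndependent K ![x, y] ∧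
      a * x + b * (σ x + δ * σ (σ (σ (σ (σ x))))) = 0 ∧
      a * y + b * (σ y + δ * σ (σ (σ (σ (σ y))))) = 0) ∧
  (∀ a b : L, (a ≠ 0 ∨ b ≠ 0) → ∀ x y : L, LinearIndependent K ![x, y] →
      a * x + b * (σ x + δ * σ (σ (σ (σ (σ x))))) = 0 →
      a * y + b * (σ y + δ * σ (σ (σ (σ (σ y))))) = 0 →
    ∃ z : L, σ z ≠ z ∧ Rel σ (δ * σ (σ (σ (σ δ)))) z)

/-! ## The code -/

/-- The `K`-linear maps `x ↦ a x + b (x^(q^s) + δ x^(q^(4+s)))`, `a, b : L`. -/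
def codeC (K L : Type) [Field K] [Finite K] [Field L] [Algebra K L] (s : ℕ) (δ : L) :
    Submodule K (L →ₗ[K] L) where
  carrier := {f | ∃ a b : L, ∀ x : L,
    f x = a * x + b * (x ^ (Nat.card K ^ s) + δ * x ^ (Nat.card K ^ (4 + s)))}
  add_mem' := by
    rintro f g ⟨a, b, h⟩ ⟨a', b', h'⟩
    exact ⟨a + a', b + b', fun x => by rw [LinearMap.add_apply, h, h']; ring⟩
  zero_mem' := ⟨0, 0, fun x => by simp⟩
  smul_mem' := by
    rintro c f ⟨a, b, h⟩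
    exact ⟨algebraMap K L c * a, algebraMap K L c * b, fun x => by
      rw [LinearMap.smul_apply, h, Algebra.smul_def]; ring⟩

/-- A `K`-subspace `C` of `End_K(L)` whose nonzero elements have minimum rank `d` is maximum
rank distance if `dim C = n (n − d + 1)`, `n = dim L`. -/
def IsMRD {K L : Type} [Field K] [Field L] [Algebra K L] (C : Submodule K (L →ₗ[K] L)) : Prop :=
  ∃ d : ℕ, (∃ f ∈ C, f ≠ 0 ∧ finrank K (LinearMap.range f) = d) ∧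
    (∀ f ∈ C, f ≠ 0 → d ≤ finrank K (LinearMap.range f)) ∧
    finrank K C = finrank K L * (finrank K L - d + 1)

/-- JOB COD (uses `S_TAU` and the Dedekind independence of `1, σ, σ⁵`, e.g. from `S_IND`).
The code is MRD iff no code word `(a,b) ≠ (0,0)` kills two independent vectors.
Proof.  `x^(q^(4+s)) = σ⁴(σ x)` (`S_TAU`).  The code is the range of the injective `K`-linear map
`(a,b) ↦ (x ↦ a x + b (x1 + δ x5))` on `L × L`: if `a x + b x1 + bδ x5 = 0` for all `x`, then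
`a = b = 0` by `S_IND` applied on `W` (`x5 = −x1` there: `a x + b(1−δ) x1 = 0`, so `a = 0`,
`b(1−δ) = 0`; and if `δ = 1`, `b ≠ 0`: `x1 + x5 = 0` for all `x ∈ L`, so `x5 = −x1`, all of `L`
is in `W`, contradiction at `x = 1`).  So `dim C = 16`.  If MRD with `d`: `16 = 8 (8 − d + 1)`,
`d = 7`; nonzero words have rank `≥ 7`, kernel of dimension `≤ 1` (rank-nullity).  Conversely,
if no nonzero word kills two independent vectors, all have rank `≥ 7`, and the word with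
`b = 1`, `a = −(1 + δ)` kills `1`, so has rank exactly 7: `d = 7`. -/
def S_COD : Prop := ∀ (K L : Type) [Field K] [Finite K] [Field L] [Finite L] [Algebra K L]
  (σ : L ≃ₐ[K] L), Cyc σ → ∀ s : ℕ, (∀ x, σ x = x ^ (Nat.card K ^ s)) → ∀ δ : L,
  (IsMRD (codeC K L s δ) ↔ ∀ a b : L, (a ≠ 0 ∨ b ≠ 0) → ∀ x y : L,
      a * x + b * (σ x + δ * σ (σ (σ (σ (σ x))))) = 0 →
      a * y + b * (σ y + δ * σ (σ (σ (σ (σ y))))) = 0 → ¬ LinearIndependent K ![x, y])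

end Q49.MR
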