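import Mathlib
import Pool.Agent.Q49.MR.Stm

open Module

namespace Q49.MR

section
variable {K L : Type} [Field K] [Finite K] [Field L] [Finite L] [Algebra K L] {σ : L ≃ₐ[K] L}

theorem cardL (h : Cyc σ) : Nat.card L = Nat.card K ^ 8 := by
  rw [Module.natCard_eq_pow_finrank (K := K), h.rank]

theorem pow8 (h : Cyc σ) (x : L) : x ^ (Nat.card K ^ 8) = x := by
  haveI := Fintype.ofFinite L
  rw [← cardL h, Nat.card_eq_fintype_card]; exact FiniteField.pow_card x

theorem pow8m (h : Cyc σ) (x : L) (m r : ℕ) :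
    x ^ (Nat.card K ^ (8 * m + r)) = x ^ (Nat.card K ^ r) := by
  induction m with
  | zero => simp
  | succ m ih =>
    have : 8 * (m + 1) + r = 8 + (8 * m + r) := by ring
    rw [this, pow_add, pow_mul, pow8 h, ih]

omit [Finite K] [Finite L] in
theorem iter_pow {s : ℕ} (hs : ∀ x : L, σ x = x ^ (Nat.card K ^ s)) (n : ℕ) (x : L) :
    (σ^[n]) x = x ^ (Nat.card K ^ (s * n)) := by
  induction n with
  | zero => simp
  | succ n ih =>
    rw [Function.iterate_succ_apply', ih, hs, ← pow_mul, ← pow_add, mul_add, mul_one]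

theorem odd_sq {s : ℕ} (hs : Odd s) : ∃ m, s * s = 8 * m + 1 := by
  have h1 : s * s % 8 = 1 := by
    have h2 : s % 2 = 1 := Nat.odd_iff.1 hs
    have h3 : s % 8 = 1 ∨ s % 8 = 3 ∨ s % 8 = 5 ∨ s % 8 = 7 := by omega
    rw [Nat.mul_mod]
    rcases h3 with h | h | h | h <;> rw [h]
  exact ⟨s * s / 8, by omega⟩

theorem b8 : S_B8 := by
  intro K L _ _ _ _ _ σ h x
  obtain ⟨s, hs, hp⟩ := h.pow
  have h1 := iter_pow hp 8 x
  have h2 := pow8m h x s 0
  have h3 : s * 8 = 8 * s + 0 := by ring
  rw [h3, h2, pow_zero, pow_one] at h1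
  simpa [Function.iterate_succ_apply'] using h1

theorem tau : S_TAU := by
  intro K L _ _ _ _ _ σ h x
  obtain ⟨s, hs, hp⟩ := h.pow
  have h1 := iter_pow hp 4 x
  obtain ⟨t, rfl⟩ := hs
  have h3 : (2 * t + 1) * 4 = 8 * t + 4 := by ring
  rw [h3, pow8m h] at h1
  simpa [Function.iterate_succ_apply'] using h1

omit [Finite L] in
theorem mem_of_pow {x : L} (hx : x ^ Nat.card K = x) : ∃ c : K, algebraMap K L c = x := by
  classical
  haveI := Fintype.ofFinite K
  by_contra hne
  push Not at hne
  have hcard : 1 < Fintype.card K := Fintype.one_lt_card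
  have hq : Nat.card K = Fintype.card K := Nat.card_eq_fintype_card
  set S : Finset L := insert x (Finset.univ.image (algebraMap K L)) with hS
  have hSc : S.card = Fintype.card K + 1 := by
    rw [hS, Finset.card_insert_of_notMem, Finset.card_image_of_injective _ (algebraMap K L).injective,
      Finset.card_univ]
    intro h
    obtain ⟨c, -, hc⟩ := Finset.mem_image.1 h
    exact hne c hc
  have hP : (Polynomial.X ^ Fintype.card K - Polynomial.X : Polynomial L) ≠ 0 :=
    FiniteField.X_pow_card_sub_X_ne_zero L hcard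
  have h1 : S.card ≤ (Polynomial.X ^ Fintype.card K - Polynomial.X : Polynomial L).natDegree := by
    refine Polynomial.card_le_degree_of_subset_roots (p := Polynomial.X ^ Fintype.card K - Polynomial.X) ?_
    intro y hy
    rw [Polynomial.mem_roots hP, Polynomial.IsRoot, Polynomial.eval_sub, Polynomial.eval_pow,
      Polynomial.eval_X, sub_eq_zero]
    have hy' : y ∈ S := hy
    rw [hS, Finset.mem_insert] at hy'
    rcases hy' with rfl | hy'
    · rw [← hq]; exact hx
    · obtain ⟨c, -, rfl⟩ := Finset.mem_image.1 hy'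
      rw [← map_pow, FiniteField.pow_card]
  rw [hSc, FiniteField.X_pow_card_sub_X_natDegree_eq L hcard] at h1
  omega

theorem fx : S_FX := by
  intro K L _ _ _ _ _ σ h x hx
  obtain ⟨s, hs, hp⟩ := h.pow
  apply mem_of_pow
  have h1 := iter_pow hp s x
  obtain ⟨m, hm⟩ := odd_sq hs
  rw [hm, pow8m h, pow_one, Function.iterate_fixed hx] at h1
  exact h1.symm

theorem k2 : S_K2 := by
  intro K L _ _ _ _ _ σ h x hx
  obtain ⟨s, hs, hp⟩ := h.pow
  have h1 := iter_pow hp s x
  obtain ⟨m, hm⟩ := odd_sq hs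
  rw [hm, pow8m h, pow_one] at h1
  rw [← h1]
  obtain ⟨t, rfl⟩ := hs
  have h2 : ∀ n, (σ^[2 * n]) x = x := by
    intro n
    induction n with
    | zero => simp
    | succ n ih =>
      rw [mul_add, Function.iterate_add_apply]
      simp only [mul_one]
      have : (σ^[2]) x = x := by simpa [Function.iterate_succ_apply'] using hx
      rw [this, ih]
  have h3 : (σ^[2 * t + 1]) x = σ ((σ^[2 * t]) x) := Function.iterate_succ_apply' σ (2 * t) x
  rw [h3, h2]

theorem odd_q (h : Cyc σ) : Odd (Nat.card K) := by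
  haveI := Fintype.ofFinite K
  rw [Nat.card_eq_fintype_card]
  rcases Nat.even_or_odd (Fintype.card K) with he | ho
  · exfalso
    have h1 := (FiniteField.even_card_iff_char_two (F := K)).2 (Nat.even_iff.1 he)
    apply h.two
    haveI : CharP K 2 := by rw [← h1]; exact ringChar.charP K
    exact_mod_cast CharP.cast_eq_zero K 2
  · exact ho

theorem sq : S_SQ := by
  intro K L _ _ _ _ _ σ h c hc
  haveI := Fintype.ofFinite L
  by_cases h0 : c = 0
  · exact ⟨0, by simp [h0]⟩
  have h1 : c ^ (Nat.card K ^ 4) = c := by rw [← tau K L σ h, hc]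
  have h2 : IsSquare c := by
    have h2' : ringChar L ≠ 2 := by
      intro hch
      apply h.two
      apply (algebraMap K L).injective
      haveI : CharP L 2 := by rw [← hch]; exact ringChar.charP L
      rw [map_zero, map_ofNat]
      exact_mod_cast CharP.cast_eq_zero L 2
    rw [FiniteField.isSquare_iff h2' h0]
    obtain ⟨t, ht⟩ := odd_q h
    set q := Nat.card K with hq
    have h3 : c ^ (q ^ 4 - 1) = 1 := by
      have h4 : 1 ≤ q ^ 4 := Nat.one_le_pow _ _ (by omega)
      have h5 : c ^ (q ^ 4 - 1) * c = 1 * c := by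
        rw [← pow_succ, Nat.sub_add_cancel h4, h1, one_mul]
      exact mul_right_cancel₀ h0 h5
    have h6 : Fintype.card L / 2 = (q ^ 4 - 1) * ((q ^ 4 + 1) / 2) := by
      rw [← Nat.card_eq_fintype_card, cardL h, ← hq]
      have ho : Odd (q ^ 4) := Odd.pow ⟨t, ht⟩
      obtain ⟨u, hu⟩ := ho
      have : q ^ 8 = (q ^ 4) * (q ^ 4) := by ring
      rw [this, hu]
      have e1 : (2 * u + 1) * (2 * u + 1) = 2 * (2 * u * (u + 1)) + 1 := by ring
      have e2 : 2 * u + 1 + 1 = 2 * (u + 1) := by ring
      rw [e1, e2, Nat.mul_div_cancel_left _ (by norm_num : 0 < 2)]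
      have e3 : (2 * (2 * u * (u + 1)) + 1) / 2 = 2 * u * (u + 1) := by omega
      rw [e3, Nat.add_sub_cancel]
    rw [h6, pow_mul, h3, one_pow]
  obtain ⟨y, hy⟩ := h2
  exact ⟨y, by rw [hy]; ring⟩

theorem hil : S_HIL := by
  intro K L _ _ _ _ _ σ h ρ hρ
  have h8 := b8 K L σ h
  by_contra hne
  push Not at hne
  have key : ∀ y : L, y + σ (σ (σ (σ ρ))) * σ (σ (σ (σ y))) = 0 := by
    intro y
    by_contra hy
    apply hne _ hy
    simp only [map_add, map_mul, h8]
    linear_combination (-(σ (σ (σ (σ y))))) * hρ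
  have k1 := key 1
  simp only [map_one, mul_one] at k1
  have k2 : ∀ y : L, σ (σ (σ (σ y))) = y := by
    intro y
    have h1 := key y
    have h2 : σ (σ (σ (σ ρ))) = -1 := by linear_combination k1
    rw [h2] at h1
    linear_combination -h1
  -- too many roots
  classical
  haveI := Fintype.ofFinite L
  haveI := Fintype.ofFinite K
  have hcard : 1 < Nat.card K := by
    rw [Nat.card_eq_fintype_card]; exact Fintype.one_lt_card
  have hP : (Polynomial.X ^ (Nat.card K ^ 4) - Polynomial.X : Polynomial L) ≠ 0 :=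
    FiniteField.X_pow_card_pow_sub_X_ne_zero L (by norm_num) hcard
  have h1 : (Finset.univ : Finset L).card ≤
      (Polynomial.X ^ (Nat.card K ^ 4) - Polynomial.X : Polynomial L).natDegree := by
    refine Polynomial.card_le_degree_of_subset_roots
      (p := Polynomial.X ^ (Nat.card K ^ 4) - Polynomial.X) ?_
    intro y _
    rw [Polynomial.mem_roots hP, Polynomial.IsRoot, Polynomial.eval_sub, Polynomial.eval_pow,
      Polynomial.eval_X, sub_eq_zero, ← tau K L σ h, k2]
  rw [FiniteField.X_pow_card_pow_sub_X_natDegree_eq L (by norm_num) hcard, Finset.card_univ,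
    ← Nat.card_eq_fintype_card, cardL h] at h1
  have h2 : Nat.card K ^ 4 < Nat.card K ^ 8 := Nat.pow_lt_pow_right hcard (by norm_num)
  omega

end

end Q49.MR
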