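import Mathlib
import Pool.Agent.Q49.MR.Stm
import Pool.Agent.Q49.MR.BAS1

open Module

namespace Q49.MR

theorem ringChar_ne {K L : Type} [Field K] [Finite K] [Field L] [Finite L] [Algebra K L]
    {σ : L ≃ₐ[K] L} (h : Cyc σ) : ringChar K ≠ 2 := by
  intro hch
  apply h.two
  haveI : CharP K 2 := by rw [← hch]; exact ringChar.charP K
  exact_mod_cast CharP.cast_eq_zero K 2

theorem two_L {K L : Type} [Field K] [Finite K] [Field L] [Finite L] [Algebra K L]
    {σ : L ≃ₐ[K] L} (h : Cyc σ) : (2 : L) ≠ 0 := by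
  intro h2
  apply h.two
  apply (algebraMap K L).injective
  rw [map_zero, map_ofNat, h2]

theorem TT_symm {K L : Type} [Field K] [Field L] [Algebra K L] (σ : L ≃ₐ[K] L) (κ e : L)
    (k k' : W σ) : TT σ κ e k k' = TT σ κ e k' k := by
  change Algebra.trace K L (e * PP σ κ k k') = Algebra.trace K L (e * PP σ κ k' k)
  congr 1
  simp only [PP]; ring

/-- a zero of `Ψ` -/
theorem partA (hQ4 : S_Q4) (hDET : S_DET) (hRK : S_RK) (hCNT : S_CNT) (hP2A : S_P2A)
    (hP2B : S_P2B) (hDIM : S_DIM)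
    (K L : Type) [Field K] [Finite K] [Field L] [Finite L] [Algebra K L]
    (σ : L ≃ₐ[K] L) (h : Cyc σ) (κ : L) (hκ4 : σ (σ (σ (σ κ))) = κ) (hκ0 : κ ≠ 0)
    (hκ1 : κ ^ 2 ≠ 1) : ∃ k ∈ W σ, k ≠ 0 ∧ Psi σ κ k = 0 := by
  by_contra hne
  push Not at hne
  have hd := (hDIM K L σ h).1
  have hb : ∀ e ∈ Em σ, e ≠ 0 → _ := fun e he he0 =>
    hQ4 K (W σ) (TT σ κ e) h.two hd (TT_symm σ κ e) (hRK K L σ h κ e hκ4 hκ0 he he0)
  have heq := hCNT K L σ h κ hκ4 hne (fun e he he0 => (hb e he he0).1)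
  obtain ⟨p, hp, hp0, g, hg⟩ : ∃ p ∈ Em σ, p ≠ 0 ∧ ∃ g : K, FF σ κ p = algebraMap K L (g ^ 2) := by
    by_cases hD : (be σ κ) ^ 2 - 4 * al σ κ * σ (al σ κ) = 0
    · exact hP2B K L σ h κ hκ4 hκ0 hκ1 hD
    · exact hP2A K L σ h κ hκ4 hκ1 hD
  have hp2 : σ (σ p) = -p := hp
  have he : p - σ p ∈ Em σ := by
    change σ (σ (p - σ p)) = -(p - σ p)
    rw [map_sub, map_sub, hp2, map_neg]; ring
  have he0 : p - σ p ≠ 0 := by
    intro h0
    have h1 : σ p = p := (sub_eq_zero.1 h0).symm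
    rw [h1, h1] at hp2
    apply hp0
    have : (2 : L) * p = 0 := by linear_combination hp2
    rcases mul_eq_zero.1 this with h2 | h2
    · exact absurd h2 (two_L h)
    · exact h2
  obtain ⟨b, hb'⟩ := (hb _ he he0).2 (heq _ he he0)
  apply hb'
  obtain ⟨D, hD⟩ := hDET K L σ h κ p hκ4 hp b
  refine ⟨D * g, ?_⟩
  apply (algebraMap K L).injective
  rw [hD, hg, ← map_mul]; congr 1; ring

theorem card_sum {K L : Type} [Field K] [Finite K] [Field L] [Finite L] [Algebra K L]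
    (σ : L ≃ₐ[K] L) (κ : L) (t : K) [Fintype (Em σ)] :
    Nat.card {z : Em σ × W σ // GG σ κ z.1 z.2 z.2 = t} =
      ∑ X : Em σ, Nat.card {c : W σ // GG σ κ X c c = t} := by
  rw [← Nat.card_sigma]
  exact Nat.card_congr
    (Equiv.subtypeProdEquivSigmaSubtype (fun (X : Em σ) (c : W σ) => GG σ κ X c c = t))

/-- a solution -/
theorem partB (hA : ∀ (K L : Type) [Field K] [Finite K] [Field L] [Finite L] [Algebra K L]
    (σ : L ≃ₐ[K] L), Cyc σ → ∀ κ : L, σ (σ (σ (σ κ))) = κ → κ ≠ 0 →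
    κ ^ 2 ≠ 1 → ∃ k ∈ W σ, k ≠ 0 ∧ Psi σ κ k = 0)
    (hCC : S_CC) (hBC : S_BC) (hB0 : S_B0) (hB1 : S_B1) (hE : S_E) (hDIM : S_DIM)
    (K L : Type) [Field K] [Finite K] [Field L] [Finite L] [Algebra K L]
    (σ : L ≃ₐ[K] L) (h : Cyc σ) (κ : L) (hκ4 : σ (σ (σ (σ κ))) = κ) (hκ0 : κ ≠ 0)
    (hκ1 : κ ^ 2 ≠ 1) : Sol σ κ := by
  classical
  haveI := Fintype.ofFinite K
  obtain ⟨k0, hk0, hk00, hk0z⟩ := hA K L σ h κ hκ4 hκ0 hκ1
  obtain ⟨X0, hX0, hX0k⟩ := (hCC K L σ h κ hκ4).1 k0 hk0 hk00 hk0z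
  obtain ⟨ε, hε⟩ := FiniteField.exists_nonsquare (ringChar_ne h)
  have hε0 : ε ≠ 0 := by
    rintro rfl; exact hε ⟨0, by simp⟩
  have hd := (hDIM K L σ h).1
  haveI := Fintype.ofFinite (Em σ)
  obtain ⟨X, hX, k, hk, hkr, hle⟩ : ∃ X ∈ Em σ, ∃ k : W σ, k ≠ 0 ∧
      (∀ x, GG σ κ X k x = 0) ∧
      Nat.card {c : W σ // GG σ κ X c c = ε} ≤ Nat.card {c : W σ // GG σ κ X c c = 1} := by
    by_contra hcon
    push Not at hcon
    have hs := hBC K L σ h κ 1 ε one_ne_zero hε0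
    rw [card_sum, card_sum] at hs
    have hlt : ∑ X : Em σ, Nat.card {c : W σ // GG σ κ X c c = 1} <
        ∑ X : Em σ, Nat.card {c : W σ // GG σ κ X c c = ε} := by
      apply Finset.sum_lt_sum
      · intro X _
        by_cases hdeg : ∃ k : W σ, k ≠ 0 ∧ ∀ x, GG σ κ X k x = 0
        · obtain ⟨k, hk, hkr⟩ := hdeg
          exact (hcon X X.2 k hk hkr).le
        · push Not at hdeg
          refine (hB0 K (W σ) (GG σ κ X) h.two hd ((hCC K L σ h κ hκ4).2 X X.2) ?_ 1 ε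
            one_ne_zero hε0).le
          intro v hv
          by_contra hv0
          obtain ⟨x, hx⟩ := hdeg v hv0
          exact hx (hv x)
      · refine ⟨⟨X0, hX0⟩, Finset.mem_univ _, ?_⟩
        refine hcon X0 hX0 ⟨k0, hk0⟩ ?_ ?_
        · intro h0
          exact hk00 (congrArg Subtype.val h0)
        · intro x
          change 2 * Algebra.trace K L (TX σ κ X0 k0 * x) = 0
          rw [hX0k]; simp
    exact absurd hs hlt.ne
  exact hE K L σ h κ hκ4 X hX
    (hB1 K (W σ) (GG σ κ X) h.two hd ((hCC K L σ h κ hκ4).2 X hX) k hk hkr ε hε hle)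

/-- the criterion in terms of `σ` -/
theorem partC (hS : ∀ (K L : Type) [Field K] [Finite K] [Field L] [Finite L] [Algebra K L]
    (σ : L ≃ₐ[K] L), Cyc σ → ∀ κ : L, σ (σ (σ (σ κ))) = κ → κ ≠ 0 → κ ^ 2 ≠ 1 → Sol σ κ)
    (hF : S_F) (hH : S_H) (hG : S_G) (hCOD : S_COD)
    (K L : Type) [Field K] [Finite K] [Field L] [Finite L] [Algebra K L]
    (σ : L ≃ₐ[K] L) (h : Cyc σ) (s : ℕ) (hs : ∀ x, σ x = x ^ (Nat.card K ^ s)) (δ : L)
    (hδ : δ ≠ 0) :
    IsMRD (codeC K L s δ) ↔ δ * σ (σ (σ (σ δ))) = -1 := by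
  have h2 := two_L h
  have h8 := b8 K L σ h
  rw [hCOD K L σ h s hs δ]
  constructor
  · intro hM
    by_contra hN
    have hex : (∃ x : L, σ x ≠ x ∧ Rel σ (δ * σ (σ (σ (σ δ)))) x) ∨
        δ * σ (σ (σ (σ δ))) = 1 := by
      by_cases h1 : δ * σ (σ (σ (σ δ))) = 1
      · exact Or.inr h1
      · left
        set N := δ * σ (σ (σ (σ δ))) with hNdef
        have hN0 : N ≠ 0 := by
          rw [hNdef]
          apply mul_ne_zero hδ
          intro h0
          apply hδ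
          have := congrArg (fun z => σ (σ (σ (σ z)))) h0
          simp only [h8, map_zero] at this
          exact this
        have hN4 : σ (σ (σ (σ N))) = N := by
          rw [hNdef]; simp only [map_mul, h8]; ring
        have hN1 : N - 1 ≠ 0 := sub_ne_zero.2 h1
        have hκ : (N + 1) / (N - 1) * (N - 1) = N + 1 := div_mul_cancel₀ _ hN1
        refine hF K L σ h ((N + 1) / (N - 1)) N h1 hκ ?_
        apply hS K L σ h
        · simp only [map_div₀, map_add, map_sub, map_one, hN4]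
        · apply div_ne_zero _ hN1
          intro h0
          apply hN
          linear_combination h0
        · intro h0
          rw [div_pow, div_eq_one_iff_eq (pow_ne_zero 2 hN1)] at h0
          have : (2 : L) * 2 * N = 0 := by linear_combination h0
          rcases mul_eq_zero.1 this with h3 | h3
          · rcases mul_eq_zero.1 h3 with h4 | h4 <;> exact h2 h4
          · exact hN0 h3
    obtain ⟨a, b, hab, x, y, hli, hx, hy⟩ := (hG K L σ h δ hδ).1 hex
    exact hM a b hab x y hx hy hli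
  · intro hN a b hab x y hx hy hli
    obtain ⟨z, hz, hrel⟩ := (hG K L σ h δ hδ).2 a b hab x y hli hx hy
    rw [hN] at hrel
    exact hz (hH K L σ h z hrel)

/-- the final form -/
theorem partD (hC : ∀ (K L : Type) [Field K] [Finite K] [Field L] [Finite L] [Algebra K L]
    (σ : L ≃ₐ[K] L), Cyc σ → ∀ s : ℕ, (∀ x, σ x = x ^ (Nat.card K ^ s)) → ∀ δ : L,
    δ ≠ 0 → (IsMRD (codeC K L s δ) ↔ δ * σ (σ (σ (σ δ))) = -1))
    (K L : Type) [Field K] [Finite K] [Field L] [Algebra K L] (hq : Odd (Nat.card K))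
    (h8 : finrank K L = 8) (s : ℕ) (hs : Odd s) (δ : L) (hδ : δ ≠ 0) :
    IsMRD (codeC K L s δ) ↔ δ ^ (1 + Nat.card K ^ 4) = -1 := by
  haveI : FiniteDimensional K L := FiniteDimensional.of_finrank_pos (by omega)
  haveI : Finite L := Module.finite_of_finite K
  haveI := Fintype.ofFinite K
  haveI : Algebra.IsAlgebraic K L := Algebra.IsAlgebraic.of_finite K L
  let σ : L ≃ₐ[K] L := (FiniteField.frobeniusAlgEquivOfAlgebraic K L) ^ s
  have hσ : ∀ x, σ x = x ^ (Nat.card K ^ s) := by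
    intro x
    change ((FiniteField.frobeniusAlgEquivOfAlgebraic K L) ^ s) x = _
    rw [AlgEquiv.coe_pow, FiniteField.coe_frobeniusAlgEquivOfAlgebraic_iterate,
      Nat.card_eq_fintype_card]
  have hc : Cyc σ := by
    refine ⟨?_, h8, s, hs, hσ⟩
    intro h2
    have h1 : ringChar K = 2 := by
      have h3 : ringChar K ∣ 2 := ringChar.dvd (by exact_mod_cast h2)
      have h4 : ringChar K ≠ 1 := CharP.ringChar_ne_one
      rcases (Nat.dvd_prime Nat.prime_two).1 h3 with h5 | h5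
      · exact absurd h5 h4
      · exact h5
    have h3 := (FiniteField.even_card_iff_char_two (F := K)).1 h1
    rw [Nat.card_eq_fintype_card, Nat.odd_iff] at hq
    omega
  rw [hC K L σ hc s hσ δ hδ, tau K L σ hc, pow_add, pow_one]

end Q49.MR
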